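import Pool.Agent.Helper883.Dicut.CNuUp

set_option autoImplicit false

/-!
The exponents `α_L` and `α_U` of the second order term of the worst maximum dicut ratio of
acyclic digraphs with positive arc weights both equal `-2/3`.
-/

namespace Pool.Agent.Results.MP_0d4af9_co.Exponents

open Finset Filter

/-- A finite acyclic digraph on the vertex set `Fin n` in which every arc has a positive weight
(pairs that are not arcs get weight `0`). -/
structure PosAcyclic (n : ℕ) where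
  arc : Fin n → Fin n → Prop
  weight : Fin n → Fin n → ℝ
  pos : ∀ u v, arc u v → 0 < weight u v
  supp : ∀ u v, ¬ arc u v → weight u v = 0
  acyclic : ∀ v, ¬ Relation.TransGen arc v v

/-- The total weight `w(D)`. -/
def total {n : ℕ} (D : PosAcyclic n) : ℝ := ∑ u, ∑ v, D.weight u v

/-- The weight of the dicut `(X, V \ X)`. -/
def dicut {n : ℕ} (D : PosAcyclic n) (X : Finset (Fin n)) : ℝ := ∑ u ∈ X, ∑ v ∈ Xᶜ, D.weight u v

/-- The maximum dicut weight `mac(D)` (a maximum over finitely many sets `X`). -/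
noncomputable def maxDicut {n : ℕ} (D : PosAcyclic n) : ℝ := ⨆ X : Finset (Fin n), dicut D X

/-- There is a directed path with exactly `k` vertices. -/
def HasPath {n : ℕ} (D : PosAcyclic n) (k : ℕ) : Prop :=
  ∃ p : Fin k → Fin n, Function.Injective p ∧ ∀ i j : Fin k, (i : ℕ) + 1 = (j : ℕ) → D.arc (p i) (p j)

/-- The longest directed path of `D` has order (number of vertices) `ν`. -/
def LongestPathOrder {n : ℕ} (D : PosAcyclic n) (ν : ℕ) : Prop := IsGreatest {k : ℕ | HasPath D k} ν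

/-- `c_ν`: the infimum of `mac(D) / w(D)` over acyclic positively weighted digraphs `D` whose
longest directed path has order `ν`. -/
noncomputable def c (ν : ℕ) : ℝ :=
  sInf {r : ℝ | ∃ (n : ℕ) (D : PosAcyclic n), LongestPathOrder D ν ∧ r = maxDicut D / total D}

/-- The infimum of all `α` with `c_ν - 1/4 = O(ν^α)` as `ν → ∞`. -/
noncomputable def alphaU : ℝ :=
  sInf {α : ℝ | ∃ K : ℝ, 0 < K ∧ ∀ᶠ ν : ℕ in atTop, |c ν - 1 / 4| ≤ K * (ν : ℝ) ^ α}

/-- The supremum of all `α` with `c_ν - 1/4 = Ω(ν^α)` as `ν → ∞`. -/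
noncomputable def alphaL : ℝ :=
  sSup {α : ℝ | ∃ k : ℝ, 0 < k ∧ ∀ᶠ ν : ℕ in atTop, k * (ν : ℝ) ^ α ≤ c ν - 1 / 4}

open Pool.Agent.Helper883.Dicut in
/-- forget positivity -/
def PosAcyclic.toW {n : ℕ} (D : PosAcyclic n) : WAcyclic n where
  arc := D.arc
  weight := D.weight
  nonneg u v := by
    by_cases h : D.arc u v
    · exact (D.pos u v h).le
    · rw [D.supp u v h]
  supp := D.supp
  acyclic := D.acyclic

theorem total_pos {n : ℕ} (D : PosAcyclic n) {ν : ℕ} (hν : 2 ≤ ν) (h : LongestPathOrder D ν) :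
    0 < total D := by
  obtain ⟨p, _, hp⟩ := h.1
  have h1 : D.arc (p ⟨0, by omega⟩) (p ⟨1, by omega⟩) := hp _ _ rfl
  have h2 := D.pos _ _ h1
  have hnn : ∀ u v, 0 ≤ D.weight u v := D.toW.nonneg
  unfold total
  calc 0 < D.weight (p ⟨0, by omega⟩) (p ⟨1, by omega⟩) := h2
    _ ≤ ∑ v, D.weight (p ⟨0, by omega⟩) v :=
        Finset.single_le_sum (f := fun v => D.weight (p ⟨0, by omega⟩) v) (fun v _ => hnn _ v) (mem_univ _)
    _ ≤ ∑ u, ∑ v, D.weight u v :=
        Finset.single_le_sum (f := fun u => ∑ v, D.weight u v)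
          (fun u _ => Finset.sum_nonneg (fun v _ => hnn u v)) (mem_univ _)

theorem ratio_ge {n : ℕ} (D : PosAcyclic n) {ν : ℕ} (hν : 2 ≤ ν) (h : LongestPathOrder D ν) :
    1 / 4 + 1 / 32 * (ν : ℝ) ^ (-(2:ℝ)/3) ≤ maxDicut D / total D := by
  rw [le_div_iff₀ (total_pos D hν h)]
  exact Pool.Agent.Helper883.Dicut.lower_c (by omega) D.toW h

/-- make all arc weights positive by adding `δ` -/
noncomputable def bump {n : ℕ} (D : Pool.Agent.Helper883.Dicut.WAcyclic n) (δ : ℝ) (hδ : 0 < δ) :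
    PosAcyclic n where
  arc := D.arc
  weight u v := by
    classical
    exact D.weight u v + if D.arc u v then δ else 0
  pos u v h := by
    have := D.nonneg u v
    simp only [h, if_true]
    linarith
  supp u v h := by
    simp only [h, if_false, D.supp u v h, add_zero]
  acyclic := D.acyclic

theorem bump_total {n : ℕ} (D : Pool.Agent.Helper883.Dicut.WAcyclic n) (δ : ℝ) (hδ : 0 < δ) :
    Pool.Agent.Helper883.Dicut.totalWeight D.weight ≤ total (bump D δ hδ) := by
  classical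
  unfold Pool.Agent.Helper883.Dicut.totalWeight total bump
  apply Finset.sum_le_sum
  intro u _
  apply Finset.sum_le_sum
  intro v _
  simp only
  split_ifs <;> linarith

theorem bump_mac {n : ℕ} (D : Pool.Agent.Helper883.Dicut.WAcyclic n) (δ : ℝ) (hδ : 0 < δ) :
    maxDicut (bump D δ hδ) ≤ Pool.Agent.Helper883.Dicut.mac D.weight + δ * (n * n) := by
  classical
  apply ciSup_le
  intro X
  have h1 := Pool.Agent.Helper883.Dicut.cut_le_mac D.weight X
  have h2 : dicut (bump D δ hδ) X ≤ Pool.Agent.Helper883.Dicut.cutWeight D.weight X + δ * (n * n) := by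
    unfold dicut Pool.Agent.Helper883.Dicut.cutWeight bump
    have h3 : ∑ u ∈ X, ∑ v ∈ Xᶜ, (D.weight u v + if D.arc u v then δ else 0)
        = (∑ u ∈ X, ∑ v ∈ Xᶜ, D.weight u v) + ∑ u ∈ X, ∑ v ∈ Xᶜ, (if D.arc u v then δ else 0) := by
      simp only [Finset.sum_add_distrib]
    have h4 : ∑ u ∈ X, ∑ v ∈ Xᶜ, (if D.arc u v then δ else 0) ≤ δ * (n * n) := by
      calc ∑ u ∈ X, ∑ v ∈ Xᶜ, (if D.arc u v then δ else 0)
          ≤ ∑ u ∈ X, ∑ v ∈ Xᶜ, δ := by
            apply Finset.sum_le_sum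
            intro u _
            apply Finset.sum_le_sum
            intro v _
            split_ifs <;> linarith
        _ = X.card * (Xᶜ.card * δ) := by simp
        _ ≤ n * (n * δ) := by
            have e1 : (X.card : ℝ) ≤ n := by
              have := Finset.card_le_univ X
              rw [Fintype.card_fin] at this
              exact_mod_cast this
            have e2 : ((Xᶜ).card : ℝ) ≤ n := by
              have := Finset.card_le_univ Xᶜ
              rw [Fintype.card_fin] at this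
              exact_mod_cast this
            gcongr
        _ = δ * (n * n) := by ring
    exact (le_of_eq h3).trans (by linarith)
  linarith

theorem c_bddBelow {ν : ℕ} (hν : 2 ≤ ν) :
    BddBelow {r : ℝ | ∃ (n : ℕ) (D : PosAcyclic n), LongestPathOrder D ν ∧ r = maxDicut D / total D} := by
  refine ⟨1 / 4 + 1 / 32 * (ν : ℝ) ^ (-(2:ℝ)/3), ?_⟩
  rintro r ⟨n, D, hD, rfl⟩
  exact ratio_ge D hν hD

theorem c_le {ν : ℕ} (hν : 2 ≤ ν) : c ν ≤ Pool.Agent.Helper883.Dicut.cNu ν := by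
  by_contra hlt
  push Not at hlt
  obtain ⟨x, hx1, hx2⟩ := exists_between hlt
  have h0 : 0 ≤ Pool.Agent.Helper883.Dicut.cNu ν := by
    have := Pool.Agent.Helper883.Dicut.cNu_ge hν
    have h2 : 0 ≤ (ν : ℝ) ^ (-(2:ℝ)/3) := by positivity
    linarith
  have hx0 : 0 ≤ x := h0.trans hx1.le
  have hnot : ¬ ∀ (n : ℕ) (D : Pool.Agent.Helper883.Dicut.WAcyclic n),
      Pool.Agent.Helper883.Dicut.MaxPathOrder D ν →
      x * Pool.Agent.Helper883.Dicut.totalWeight D.weight ≤ Pool.Agent.Helper883.Dicut.mac D.weight := by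
    intro hall
    have : x ≤ Pool.Agent.Helper883.Dicut.cNu ν := by
      apply le_csSup
      · refine ⟨1, ?_⟩
        rintro c ⟨_, hc⟩
        have hlt : (⟨0, by omega⟩ : Fin ν) < ⟨1, by omega⟩ := by rw [Fin.lt_def]; simp
        have h1 := hc ν (Pool.Agent.Helper883.Dicut.tourn (Pool.Agent.Helper883.Dicut.one _ _)
          (Pool.Agent.Helper883.Dicut.one_nonneg _ _) (Pool.Agent.Helper883.Dicut.one_supp hlt))
          (Pool.Agent.Helper883.Dicut.tourn_order _ _ _)
        have e : (Pool.Agent.Helper883.Dicut.tourn (Pool.Agent.Helper883.Dicut.one _ _)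
          (Pool.Agent.Helper883.Dicut.one_nonneg _ _)
          (Pool.Agent.Helper883.Dicut.one_supp hlt)).weight =
            Pool.Agent.Helper883.Dicut.one (⟨0, by omega⟩ : Fin ν) ⟨1, by omega⟩ := rfl
        rw [e, Pool.Agent.Helper883.Dicut.total_one] at h1
        have h2 := Pool.Agent.Helper883.Dicut.mac_le_total _
          (Pool.Agent.Helper883.Dicut.one_nonneg (⟨0, by omega⟩ : Fin ν) ⟨1, by omega⟩)
        rw [Pool.Agent.Helper883.Dicut.total_one] at h2
        linarith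
      · exact ⟨hx0, hall⟩
    exact absurd (this.trans_lt hx1) (lt_irrefl _)
  push Not at hnot
  obtain ⟨n, D, hD, hlt2⟩ := hnot
  set T := Pool.Agent.Helper883.Dicut.totalWeight D.weight with hT
  set M := Pool.Agent.Helper883.Dicut.mac D.weight with hM
  -- choose a small δ
  obtain ⟨δ, hδ, hδ2⟩ : ∃ δ : ℝ, 0 < δ ∧ M + δ * (n * n) < x * T := by
    refine ⟨(x * T - M) / (2 * (n * n + 1)), ?_, ?_⟩
    · apply div_pos (by linarith); positivity
    · have hpos : (0:ℝ) < n * n + 1 := by positivity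
      have h1 : (x * T - M) / (2 * (n * n + 1)) * (n * n) ≤ (x * T - M) / 2 := by
        rw [div_mul_eq_mul_div, div_le_div_iff₀ (by positivity) (by norm_num)]
        have : 0 < x * T - M := by linarith
        nlinarith
      linarith
  have hD' : LongestPathOrder (bump D δ hδ) ν := hD
  have htot := total_pos (bump D δ hδ) hν hD'
  have h1 : c ν ≤ maxDicut (bump D δ hδ) / total (bump D δ hδ) :=
    csInf_le (c_bddBelow hν) ⟨n, bump D δ hδ, hD', rfl⟩
  have h2 : x < maxDicut (bump D δ hδ) / total (bump D δ hδ) := lt_of_lt_of_le hx2 h1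
  rw [lt_div_iff₀ htot] at h2
  have h3 := bump_mac D δ hδ
  have h4 := mul_le_mul_of_nonneg_left (bump_total D δ hδ) hx0
  linarith

theorem c_nonempty {ν : ℕ} (hν : 2 ≤ ν) :
    Set.Nonempty {r : ℝ | ∃ (n : ℕ) (D : PosAcyclic n), LongestPathOrder D ν ∧ r = maxDicut D / total D} := by
  have hlt : (⟨0, by omega⟩ : Fin ν) < ⟨1, by omega⟩ := by rw [Fin.lt_def]; simp
  let D0 := Pool.Agent.Helper883.Dicut.tourn
    (Pool.Agent.Helper883.Dicut.one (⟨0, by omega⟩ : Fin ν) ⟨1, by omega⟩)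
    (Pool.Agent.Helper883.Dicut.one_nonneg _ _) (Pool.Agent.Helper883.Dicut.one_supp hlt)
  have h1 : Pool.Agent.Helper883.Dicut.MaxPathOrder D0 ν := Pool.Agent.Helper883.Dicut.tourn_order
    (Pool.Agent.Helper883.Dicut.one (⟨0, by omega⟩ : Fin ν) ⟨1, by omega⟩)
    (Pool.Agent.Helper883.Dicut.one_nonneg _ _) (Pool.Agent.Helper883.Dicut.one_supp hlt)
  exact ⟨_, ν, bump D0 1 one_pos, h1, rfl⟩

theorem c_ge {ν : ℕ} (hν : 2 ≤ ν) : 1 / 4 + 1 / 32 * (ν : ℝ) ^ (-(2:ℝ)/3) ≤ c ν := by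
  apply le_csInf (c_nonempty hν)
  rintro r ⟨n, D, hD, rfl⟩
  exact ratio_ge D hν hD

theorem c_bounds {ν : ℕ} (hν : 2 ≤ ν) :
    1 / 4 + 1 / 32 * (ν : ℝ) ^ (-(2:ℝ)/3) ≤ c ν ∧ c ν ≤ 1 / 4 + 75 * (ν : ℝ) ^ (-(2:ℝ)/3) :=
  ⟨c_ge hν, (c_le hν).trans (Pool.Agent.Helper883.Dicut.cNu_le_main hν)⟩

/-- comparison of exponents -/
theorem exponent_le {a b A B : ℝ} (hA : 0 < A)
    (h : ∀ᶠ ν : ℕ in atTop, A * (ν : ℝ) ^ a ≤ B * (ν : ℝ) ^ b) : a ≤ b := by
  by_contra hlt
  push Not at hlt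
  have h1 : Tendsto (fun ν : ℕ => (ν : ℝ) ^ (a - b)) atTop atTop :=
    (tendsto_rpow_atTop (by linarith)).comp tendsto_natCast_atTop_atTop
  have h2 := h1.eventually_gt_atTop (B / A)
  obtain ⟨ν, h3, h4, h5⟩ := (h.and (h2.and (eventually_ge_atTop 1))).exists
  have hν : (0:ℝ) < ν := by exact_mod_cast h5
  have h6 : (ν : ℝ) ^ a = (ν : ℝ) ^ (a - b) * (ν : ℝ) ^ b := by
    rw [← Real.rpow_add hν]; ring_nf
  have h7 : 0 < (ν : ℝ) ^ b := Real.rpow_pos_of_pos hν b
  rw [h6, ← mul_assoc] at h3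
  have h8 := le_of_mul_le_mul_right h3 h7
  rw [div_lt_iff₀ hA] at h4
  linarith

/-- For the constants `c_ν` one has `1/4 + ν^(-2/3)/32 ≤ c_ν ≤ 1/4 + 75 ν^(-2/3)` for all
`ν ≥ 2`, and hence `α_L = α_U = -2/3`. -/
theorem result :
    (∀ ν : ℕ, 2 ≤ ν → 1 / 4 + 1 / 32 * (ν : ℝ) ^ (-(2:ℝ)/3) ≤ c ν ∧
      c ν ≤ 1 / 4 + 75 * (ν : ℝ) ^ (-(2:ℝ)/3)) ∧ alphaL = -(2:ℝ)/3 ∧ alphaU = -(2:ℝ)/3 := by
  refine ⟨fun ν hν => c_bounds hν, ?_, ?_⟩
  · apply le_antisymm
    · apply csSup_le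
      · exact ⟨-(2:ℝ)/3, 1 / 32, by norm_num, by
          filter_upwards [eventually_ge_atTop 2] with ν hν
          have := (c_bounds hν).1
          linarith⟩
      · rintro α ⟨k, hk, h⟩
        apply exponent_le (B := 75) hk
        filter_upwards [h, eventually_ge_atTop 2] with ν h1 hν
        have := (c_bounds hν).2
        linarith
    · apply le_csSup
      · refine ⟨-(2:ℝ)/3, ?_⟩
        rintro α ⟨k, hk, h⟩
        apply exponent_le (B := 75) hk
        filter_upwards [h, eventually_ge_atTop 2] with ν h1 hν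
        have := (c_bounds hν).2
        linarith
      · exact ⟨1 / 32, by norm_num, by
          filter_upwards [eventually_ge_atTop 2] with ν hν
          have := (c_bounds hν).1
          linarith⟩
  · have hmem : ∀ α : ℝ, (∃ K : ℝ, 0 < K ∧ ∀ᶠ ν : ℕ in atTop, |c ν - 1 / 4| ≤ K * (ν : ℝ) ^ α) →
        -(2:ℝ)/3 ≤ α := by
      rintro α ⟨K, hK, h⟩
      apply exponent_le (B := K) (by norm_num : (0:ℝ) < 1 / 32)
      filter_upwards [h, eventually_ge_atTop 2] with ν h1 hν
      have := (c_bounds hν).1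
      have := (abs_le.1 h1).2
      linarith
    have hin : ∃ K : ℝ, 0 < K ∧ ∀ᶠ ν : ℕ in atTop, |c ν - 1 / 4| ≤ K * (ν : ℝ) ^ (-(2:ℝ)/3) := by
      refine ⟨75, by norm_num, ?_⟩
      filter_upwards [eventually_ge_atTop 2] with ν hν
      obtain ⟨h1, h2⟩ := c_bounds hν
      have h3 : 0 ≤ (ν : ℝ) ^ (-(2:ℝ)/3) := by positivity
      rw [abs_le]
      constructor <;> linarith
    apply le_antisymm
    · exact csInf_le ⟨-(2:ℝ)/3, fun α hα => hmem α hα⟩ hin
    · exact le_csInf ⟨_, hin⟩ (fun α hα => hmem α hα)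

end Pool.Agent.Results.MP_0d4af9_co.Exponents
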